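import Mathlib

set_option autoImplicit false

namespace Pool.Agent.Results.MP_d6b04a_al.Pos

open Finset

variable {L : Type*} [CompleteLattice L]

/-- A point: the set of elements strictly below `p` has a largest element. -/
def IsPoint (p : L) : Prop := ∃ q, IsGreatest {x | x < p} q

def Refines (X Y : Finset L) : Prop := ∀ x ∈ X, ∃ y ∈ Y, x ≤ y

def MinCover (p : L) (F : Finset L) : Prop :=
  p ≤ F.sup id ∧ ∀ X : Finset L, p ≤ X.sup id → Refines X F → F ⊆ X

theorem result [IsModularLattice L]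
    (hs : ∀ x : L, ∃ S : Set L, (∀ q ∈ S, IsPoint q) ∧ sSup S = x) (p : L)
    (hp : IsCompactElement p) (E : Finset L) (hE : p ≤ E.sup id) :
    ∃ F, MinCover p F ∧ Refines F E := by
  classical
  have key : ∀ E' : Finset L, ∀ W, p ≤ E'.sup id ⊔ W → ∃ F : Finset L, Refines F E' ∧
      p ≤ F.sup id ⊔ W ∧ ∀ y ∈ F, ∃ q, IsGreatest {x | x < y} q ∧
        ¬ p ≤ q ⊔ ((F.erase y).sup id ⊔ W) := fun E' => by
    induction E' using Finset.induction_on with
    | empty => exact fun W h => ⟨∅, by simp [Refines], h, by simp⟩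
    | insert e E' _ ih =>
      intro W h
      rw [sup_insert, id, sup_comm e, sup_assoc] at h
      obtain ⟨F, f1, f2, f3⟩ := ih _ h
      set V := F.sup id ⊔ W
      obtain ⟨S, s1, s2⟩ := hs (e ⊓ (p ⊔ V))
      have h1 : p ≤ sSup (insert V S) := by
        rw [sSup_insert, s2, ← sup_inf_assoc_of_le _ le_sup_right]
        exact le_inf (by rwa [sup_assoc, sup_comm W]) le_sup_left
      obtain ⟨t, t1, t2⟩ :=
        (CompleteLattice.isCompactElement_iff_exists_le_sSup_of_le_sSup _ p).1 hp _ h1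
      obtain ⟨Y, ⟨y1, y2⟩, y3⟩ := exists_minimal_of_wellFoundedLT
        (fun Y : Finset L => ↑Y ⊆ S ∧ p ≤ Y.sup id ⊔ V) ⟨t.erase V, fun x hx =>
          (t1 (mem_of_mem_erase hx)).resolve_left (ne_of_mem_erase hx),
          t2.trans (Finset.sup_le fun x hx => by
            by_cases h : x = V
            · exact h.le.trans le_sup_right
            · exact (le_sup (f := id) (mem_erase.2 ⟨h, hx⟩)).trans le_sup_left)⟩
      have y4 : ∀ y ∈ Y, y ≤ e ⊓ (p ⊔ V) := fun y hy => s2 ▸ le_sSup (y1 hy)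
      refine ⟨Y ∪ F, fun y hy => ?_, by rwa [sup_union, sup_assoc], fun y hy => ?_⟩
      · rcases mem_union.1 hy with h | h
        · exact ⟨e, mem_insert_self .., (y4 y h).trans inf_le_left⟩
        · exact (f1 y h).imp fun z hz => ⟨mem_insert_of_mem hz.1, hz.2⟩
      rw [erase_union_distrib, sup_union]
      rcases mem_union.1 hy with h | h
      · obtain ⟨q, hq⟩ := s1 y (y1 h)
        refine ⟨q, hq, fun h2 => ?_⟩
        replace h2 : p ≤ q ⊔ ((Y.erase y).sup id ⊔ V) := by
          rw [sup_assoc] at h2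
          exact h2.trans (by gcongr; exact sup_le_sup_right (sup_mono (erase_subset ..)) _)
        have h3 : y ≤ q ⊔ ((Y.erase y).sup id ⊔ V) := ((y4 y h).trans inf_le_right).trans
          (_root_.sup_le h2 (le_sup_right.trans le_sup_right))
        have h4 : y ≤ (Y.erase y).sup id ⊔ V := by
          by_contra h4
          have := hq.2 (inf_lt_right.2 h4)
          rw [← inf_eq_right, sup_inf_assoc_of_le _ hq.1.le, sup_eq_left.2 this] at h3
          exact hq.1.ne h3
        have h5 := y3 (y := Y.erase y) ⟨(coe_subset.2 (erase_subset ..)).trans y1,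
          h2.trans (_root_.sup_le (hq.1.le.trans h4) le_rfl)⟩ (erase_subset ..) h
        simp at h5
      · obtain ⟨q, hq, h2⟩ := f3 y h
        refine ⟨q, hq, fun h3 => h2 (h3.trans ?_)⟩
        rw [sup_comm ((Y.erase y).sup id), sup_assoc]
        gcongr
        exact Finset.sup_le fun z hz => (y4 z (mem_of_mem_erase hz)).trans inf_le_left
  obtain ⟨F, f1, f2, f3⟩ := key E ⊥ (by simpa)
  refine ⟨F, ⟨by simpa using f2, fun X h1 h2 y hy => by_contra fun h => ?_⟩, f1⟩
  obtain ⟨q, hq, h3⟩ := f3 y hy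
  refine h3 (h1.trans (Finset.sup_le fun x hx => ?_))
  obtain ⟨z, z1, z2⟩ := h2 x hx
  by_cases e : z = y
  · exact (hq.2 ((e ▸ z2).lt_of_ne (by rintro rfl; exact h hx))).trans le_sup_left
  · exact z2.trans ((le_sup (f := id) (mem_erase.2 ⟨e, z1⟩)).trans
      (le_sup_left.trans le_sup_right))

end Pool.Agent.Results.MP_d6b04a_al.Pos
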